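import Pool.Agent.F5S.Stmts
import Pool.Agent.BTL.Annul
import Pool.Agent.BTL.Area

set_option autoImplicit false

open MeasureTheory Filter Topology

namespace Pool.Agent.F5S.H36

open Pool.Agent.BTL

theorem vol_nr_le (r : ℝ) (hr : 0 ≤ r) : volume {x : ℝ × ℝ | nr x ≤ r} ≤ ENNReal.ofReal (4 * r) := by
  have hsub : {x : ℝ × ℝ | nr x ≤ r} ⊆ Set.Icc (-Real.sqrt r) (Real.sqrt r) ×ˢ
      Set.Icc (-Real.sqrt r) (Real.sqrt r) := by
    intro x hx
    have hx' : x.1 ^ 2 + x.2 ^ 2 ≤ r := hx
    refine ⟨abs_le.mp ?_, abs_le.mp ?_⟩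
    · rw [← Real.sqrt_sq_eq_abs]; exact Real.sqrt_le_sqrt (by nlinarith [sq_nonneg x.2])
    · rw [← Real.sqrt_sq_eq_abs]; exact Real.sqrt_le_sqrt (by nlinarith [sq_nonneg x.1])
  refine le_trans (measure_mono hsub) ?_
  have hprod : (volume : Measure (ℝ × ℝ)) = (volume : Measure ℝ).prod volume := rfl
  rw [hprod, Measure.prod_prod, Real.volume_Icc, ← ENNReal.ofReal_mul (by
    have := Real.sqrt_nonneg r; linarith)]
  apply ENNReal.ofReal_le_ofReal
  have := Real.mul_self_sqrt hr
  nlinarith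

theorem pbd (hS : STRStmt) : PBDStmt := by
  have hann : S_area_annulus :=
    Pool.Agent.BTL.Annul.main_area_annulus Pool.Agent.BTL.Area.main_area_ellipse
  intro M h g0 hM hh hg0
  obtain ⟨Cs, hCs1, hCs⟩ := hS M hM
  have hM0 : 0 < M := by linarith
  set q := Real.sqrt (2 * M * Cs) with hq
  have hq2 : q ^ 2 = 2 * M * Cs := Real.sq_sqrt (by positivity)
  have hq0 : 0 ≤ q := Real.sqrt_nonneg _
  set C0 := 2 * M * (g0 + h) with hC0
  have hC00 : 0 < C0 := by positivity
  have hsC : 0 < Real.sqrt Cs := Real.sqrt_pos.mpr (by linarith)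
  refine ⟨max 1 (32 * M * h * (q + C0) + 8 * h * Real.sqrt Cs), le_max_left _ _, ?_⟩
  intro A hA T κ g hT hκ hκ1 hg
  set k := Real.sqrt κ with hk
  have hk0 : 0 < k := Real.sqrt_pos.mpr hκ
  have hk2 : k ^ 2 = κ := Real.sq_sqrt hκ.le
  have hk1 : k ≤ 1 := by rw [hk, Real.sqrt_le_one]; exact hκ1
  set r := max (k * T ^ 2 * q) C0 with hr
  have hr0 : 0 < r := lt_of_lt_of_le hC00 (le_max_right _ _)
  have hT2 : 0 < T ^ 2 := by positivity
  set S := {z : (ℝ × ℝ) × (ℝ × ℝ) | nr z.1 < T ^ 2 ∧ nr z.2 < T ^ 2 ∧ |dr z.1 z.2| ≤ κ * T ^ 2 ∧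
    |qf A z.1 - qf A z.2 - g| ≤ h} with hSdef
  have hSm : MeasurableSet S := by
    have : S = {z : (ℝ × ℝ) × (ℝ × ℝ) | nr z.1 < T ^ 2} ∩ ({z : (ℝ × ℝ) × (ℝ × ℝ) | nr z.2 < T ^ 2} ∩
      ({z : (ℝ × ℝ) × (ℝ × ℝ) | |dr z.1 z.2| ≤ κ * T ^ 2} ∩
        {z : (ℝ × ℝ) × (ℝ × ℝ) | |qf A z.1 - qf A z.2 - g| ≤ h})) := by
      ext z; simp [hSdef]
    rw [this]
    unfold nr dr qf
    refine (measurableSet_lt (by fun_prop) (by fun_prop)).inter
      ((measurableSet_lt (by fun_prop) (by fun_prop)).inter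
        ((measurableSet_le (by fun_prop) (by fun_prop)).inter
        (measurableSet_le (by fun_prop) (by fun_prop))))
  have hslice1 : ∀ x : ℝ × ℝ, volume (Prod.mk x ⁻¹' S) ≤ ENNReal.ofReal (8 * M * h) := by
    intro x
    refine le_trans (measure_mono ?_) (le_trans (hann M hM A hA (qf A x - g - h) (2 * h) (by linarith))
      (le_of_eq (by congr 1; ring)))
    rintro y ⟨-, -, -, h4⟩
    have h4' : |qf A x - qf A y - g| ≤ h := h4
    rw [abs_le] at h4'
    constructor <;> linarith [h4'.1, h4'.2]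
  have hslice2 : ∀ x : ℝ × ℝ, r < nr x →
      volume (Prod.mk x ⁻¹' S) ≤ ENNReal.ofReal (2 * h * Real.sqrt Cs * k) := by
    intro x hx
    set n := nr x with hn
    have hn0 : 0 < n := lt_trans hr0 hx
    have hn1 : C0 < n := lt_of_le_of_lt (le_max_right _ _) hx
    have hn2 : k * T ^ 2 * q < n := lt_of_le_of_lt (le_max_left _ _) hx
    have ha1 : n / (2 * M) ≤ qf A x - g - h := by
      have h1 : n / M ≤ qf A x := (hA x).1
      have h2 : g0 + h ≤ n / (2 * M) := by
        rw [le_div_iff₀ (by positivity)]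
        rw [hC0] at hn1; linarith
      have h3 : n / M = n / (2 * M) + n / (2 * M) := by field_simp; ring
      have h4 : g ≤ g0 := le_trans (le_abs_self _) hg
      linarith
    set a := qf A x - g - h with ha
    have ha0 : 0 < a := lt_of_lt_of_le (by positivity) ha1
    have han : n ^ 2 / (2 * M) ≤ a * n := by
      calc n ^ 2 / (2 * M) = n / (2 * M) * n := by ring
        _ ≤ a * n := mul_le_mul_of_nonneg_right ha1 hn0.le
    have hn3 : k ^ 2 * T ^ 4 * (2 * M * Cs) ≤ n ^ 2 := by
      have h1 : (k * T ^ 2 * q) ^ 2 ≤ n ^ 2 := pow_le_pow_left₀ (by positivity) hn2.le 2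
      calc k ^ 2 * T ^ 4 * (2 * M * Cs) = (k * T ^ 2 * q) ^ 2 := by rw [← hq2]; ring
        _ ≤ _ := h1
    have hcond : Cs * (κ * T ^ 2) ^ 2 ≤ a * n := by
      refine le_trans ?_ han
      rw [le_div_iff₀ (by positivity)]
      refine le_trans ?_ hn3
      rw [hk2]
      have h1 : κ ^ 2 ≤ κ := by nlinarith
      calc Cs * (κ * T ^ 2) ^ 2 * (2 * M) = κ ^ 2 * (T ^ 4 * (2 * M * Cs)) := by ring
        _ ≤ κ * (T ^ 4 * (2 * M * Cs)) := mul_le_mul_of_nonneg_right h1 (by positivity)
        _ = _ := by ring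
    have hst := hCs A hA x a (2 * h) (κ * T ^ 2) (by linarith) ha0 (by positivity) hn0 hcond
    refine le_trans (measure_mono ?_) (le_trans hst ?_)
    · rintro y ⟨-, -, h3, h4⟩
      have h4' : |qf A x - qf A y - g| ≤ h := h4
      rw [abs_le] at h4'
      refine ⟨?_, ?_, h3⟩ <;> linarith [h4'.1, h4'.2]
    · apply ENNReal.ofReal_le_ofReal
      have e1 : k * T ^ 2 * Real.sqrt Cs ≤ Real.sqrt (a * n) := by
        apply Real.le_sqrt_of_sq_le
        refine le_trans ?_ han
        rw [le_div_iff₀ (by positivity)]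
        refine le_trans (le_of_eq ?_) hn3
        rw [mul_pow, mul_pow, Real.sq_sqrt (by linarith : (0:ℝ) ≤ Cs)]
        ring
      have e2 : 0 < k * T ^ 2 * Real.sqrt Cs := by positivity
      have e3 : Real.sqrt Cs ^ 2 = Cs := Real.sq_sqrt (by linarith)
      calc Cs * (2 * h) * (κ * T ^ 2) / Real.sqrt (a * n)
          ≤ Cs * (2 * h) * (κ * T ^ 2) / (k * T ^ 2 * Real.sqrt Cs) := by
            apply div_le_div_of_nonneg_left _ e2 e1
            have : 0 < Cs := by linarith
            positivity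
        _ = 2 * h * Real.sqrt Cs * k := by
            rw [← hk2, div_eq_iff e2.ne']
            calc Cs * (2 * h) * (k ^ 2 * T ^ 2) = (Real.sqrt Cs ^ 2) * (2 * h) * (k ^ 2 * T ^ 2) := by
                  rw [e3]
              _ = _ := by ring
  have hprod : (volume : Measure ((ℝ × ℝ) × (ℝ × ℝ))) =
    (volume : Measure (ℝ × ℝ)).prod volume := rfl
  have hD1 : MeasurableSet {x : ℝ × ℝ | nr x ≤ r} := by
    unfold nr; exact measurableSet_le (by fun_prop) (by fun_prop)
  have hD2 : MeasurableSet {x : ℝ × ℝ | nr x ≤ T ^ 2} := by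
    unfold nr; exact measurableSet_le (by fun_prop) (by fun_prop)
  rw [hprod, Measure.prod_apply hSm]
  calc ∫⁻ x, volume (Prod.mk x ⁻¹' S)
      ≤ ∫⁻ x, (({x : ℝ × ℝ | nr x ≤ r}.indicator (fun _ => ENNReal.ofReal (8 * M * h)) x) +
        ({x : ℝ × ℝ | nr x ≤ T ^ 2}.indicator
          (fun _ => ENNReal.ofReal (2 * h * Real.sqrt Cs * k)) x)) := by
        apply lintegral_mono
        intro x
        by_cases h1 : nr x ≤ r
        · have : x ∈ {x : ℝ × ℝ | nr x ≤ r} := h1
          simp only [Set.indicator_of_mem this]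
          exact le_trans (hslice1 x) le_self_add
        · push Not at h1
          by_cases h2 : nr x ≤ T ^ 2
          · have : x ∈ {x : ℝ × ℝ | nr x ≤ T ^ 2} := h2
            simp only [Set.indicator_of_mem this]
            exact le_trans (hslice2 x h1) le_add_self
          · have : Prod.mk x ⁻¹' S = ∅ := by
              ext y
              simp only [Set.mem_preimage, Set.mem_empty_iff_false, iff_false]
              rintro ⟨h3, -⟩
              exact h2 (le_of_lt h3)
            simp [this]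
    _ = ENNReal.ofReal (8 * M * h) * volume {x : ℝ × ℝ | nr x ≤ r} +
        ENNReal.ofReal (2 * h * Real.sqrt Cs * k) * volume {x : ℝ × ℝ | nr x ≤ T ^ 2} := by
        rw [lintegral_add_left (measurable_const.indicator hD1), lintegral_indicator hD1,
          lintegral_indicator hD2, setLIntegral_const, setLIntegral_const]
    _ ≤ ENNReal.ofReal (8 * M * h) * ENNReal.ofReal (4 * r) +
        ENNReal.ofReal (2 * h * Real.sqrt Cs * k) * ENNReal.ofReal (4 * T ^ 2) := by
        gcongr
        · exact vol_nr_le r hr0.le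
        · exact vol_nr_le _ hT2.le
    _ = ENNReal.ofReal (8 * M * h * (4 * r) + 2 * h * Real.sqrt Cs * k * (4 * T ^ 2)) := by
        rw [ENNReal.ofReal_add (by positivity) (by positivity),
          ENNReal.ofReal_mul (p := 8 * M * h) (by positivity),
          ENNReal.ofReal_mul (p := 2 * h * Real.sqrt Cs * k) (by positivity)]
    _ ≤ _ := by
        apply ENNReal.ofReal_le_ofReal
        have hr1 : r ≤ k * T ^ 2 * q + C0 := by
          apply max_le
          · linarith
          · have : 0 ≤ k * T ^ 2 * q := by positivity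
            linarith
        have hX : 0 ≤ T ^ 2 * k := by positivity
        have h1 : r ≤ (q + C0) * (T ^ 2 * k + 1) := by nlinarith
        calc 8 * M * h * (4 * r) + 2 * h * Real.sqrt Cs * k * (4 * T ^ 2)
            ≤ 32 * M * h * ((q + C0) * (T ^ 2 * k + 1)) + 8 * h * Real.sqrt Cs * (T ^ 2 * k + 1) := by
              have h2 : 32 * M * h * r ≤ 32 * M * h * ((q + C0) * (T ^ 2 * k + 1)) :=
                mul_le_mul_of_nonneg_left h1 (by positivity)
              have h3 : 0 ≤ 8 * h * Real.sqrt Cs := by positivity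
              nlinarith
          _ = (32 * M * h * (q + C0) + 8 * h * Real.sqrt Cs) * (T ^ 2 * k + 1) := by ring
          _ ≤ _ := mul_le_mul_of_nonneg_right (le_max_right _ _) (by linarith)

end Pool.Agent.F5S.H36
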