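import Pool.Agent.F5S.Stmts

set_option autoImplicit false

open MeasureTheory Filter Topology

namespace Pool.Agent.F5S.H36

open Pool.Agent.BTL

/-- one line in the annulus -/
theorem line_bound (P R V H : ℝ) (hP : 0 < P) (hV : 0 < V) (hH : 0 ≤ H) :
    volume {α : ℝ | V ≤ (P * α + R) ^ 2 ∧ (P * α + R) ^ 2 ≤ V + H} ≤
      ENNReal.ofReal (H / (P * Real.sqrt V)) := by
  set s := Real.sqrt V with hs
  set t := Real.sqrt (V + H) with ht
  have hs0 : 0 < s := Real.sqrt_pos.mpr hV
  have hst : s ≤ t := Real.sqrt_le_sqrt (by linarith)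
  have hs2 : s ^ 2 = V := Real.sq_sqrt hV.le
  have ht2 : t ^ 2 = V + H := Real.sq_sqrt (by linarith)
  have hsub : {α : ℝ | V ≤ (P * α + R) ^ 2 ∧ (P * α + R) ^ 2 ≤ V + H} ⊆
      Set.Icc ((s - R) / P) ((t - R) / P) ∪ Set.Icc ((-t - R) / P) ((-s - R) / P) := by
    rintro α ⟨h1, h2⟩
    rcases le_total 0 (P * α + R) with h | h
    · left
      have h3 : s ≤ P * α + R := by
        by_contra hc
        push Not at hc
        nlinarith
      have h4 : P * α + R ≤ t := by
        by_contra hc
        push Not at hc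
        nlinarith
      constructor
      · rw [div_le_iff₀ hP]; linarith
      · rw [le_div_iff₀ hP]; linarith
    · right
      have h3 : s ≤ -(P * α + R) := by
        by_contra hc
        push Not at hc
        nlinarith
      have h4 : -(P * α + R) ≤ t := by
        by_contra hc
        push Not at hc
        nlinarith
      constructor
      · rw [div_le_iff₀ hP]; linarith
      · rw [le_div_iff₀ hP]; linarith
  have e1 : volume (Set.Icc ((s - R) / P) ((t - R) / P)) = ENNReal.ofReal ((t - s) / P) := by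
    rw [Real.volume_Icc]; congr 1; ring
  have e2 : volume (Set.Icc ((-t - R) / P) ((-s - R) / P)) = ENNReal.ofReal ((t - s) / P) := by
    rw [Real.volume_Icc]; congr 1; ring
  have hts : (t - s) / P ≤ H / (2 * s) / P := by
    apply div_le_div_of_nonneg_right _ hP.le
    rw [le_div_iff₀ (by positivity)]
    nlinarith
  calc volume {α : ℝ | V ≤ (P * α + R) ^ 2 ∧ (P * α + R) ^ 2 ≤ V + H}
      ≤ volume (Set.Icc ((s - R) / P) ((t - R) / P) ∪ Set.Icc ((-t - R) / P) ((-s - R) / P)) :=
        measure_mono hsub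
    _ ≤ _ := measure_union_le _ _
    _ = ENNReal.ofReal ((t - s) / P) + ENNReal.ofReal ((t - s) / P) := by rw [e1, e2]
    _ = ENNReal.ofReal ((t - s) / P + (t - s) / P) := by
        rw [ENNReal.ofReal_add] <;> exact div_nonneg (by linarith) hP.le
    _ ≤ ENNReal.ofReal (H / (P * s)) := by
        apply ENNReal.ofReal_le_ofReal
        calc (t - s) / P + (t - s) / P ≤ H / (2 * s) / P + H / (2 * s) / P := by linarith
          _ = H / (P * s) := by field_simp; ring

theorem det_map (x : ℝ × ℝ) : LinearMap.det (Matrix.toLin (Module.Basis.finTwoProd ℝ)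
    (Module.Basis.finTwoProd ℝ) !![x.1, -x.2; x.2, x.1]) = nr x := by
  rw [LinearMap.det_toLin, Matrix.det_fin_two_of]
  unfold nr; ring

theorem str : STRStmt := by
  intro M hM
  refine ⟨8 * M ^ 3, by nlinarith [pow_le_pow_left₀ zero_le_one hM 3], ?_⟩
  intro A hA x a h w hh ha hw hx hC
  have hM0 : 0 < M := by linarith
  set n := nr x with hn
  set P := qf A x with hP
  have hPn : n / M ≤ P := (hA x).1
  have hP0 : 0 < P := lt_of_lt_of_le (by positivity) hPn
  set f := Matrix.toLin (Module.Basis.finTwoProd ℝ)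
    (Module.Basis.finTwoProd ℝ) !![x.1, -x.2; x.2, x.1] with hf
  have hdet : LinearMap.det f = n := det_map x
  have hdet0 : LinearMap.det f ≠ 0 := by rw [hdet]; exact hx.ne'
  set S := {y : ℝ × ℝ | a ≤ qf A y ∧ qf A y ≤ a + h ∧ |dr x y| ≤ w} with hS
  have hpre := Measure.addHaar_preimage_linearMap (volume : Measure (ℝ × ℝ)) hdet0 S
  rw [hdet] at hpre
  have hSeq : volume S = ENNReal.ofReal n * volume (f ⁻¹' S) := by
    rw [hpre, ← mul_assoc, ← ENNReal.ofReal_mul hx.le, abs_of_pos (inv_pos.mpr hx),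
      mul_inv_cancel₀ hx.ne', ENNReal.ofReal_one, one_mul]
  have hfa : ∀ z : ℝ × ℝ, f z = (x.1 * z.1 + -x.2 * z.2, x.2 * z.1 + x.1 * z.2) := by
    intro z
    rw [hf, Matrix.toLin_finTwoProd_apply]
  -- the bilinear form
  set R := A.1 * x.1 * (-x.2) + A.2.1 * (x.1 * x.1 - x.2 * x.2) + A.2.2 * x.2 * x.1 with hR
  have hdisc := KM_disc hM hA
  have hform : ∀ z : ℝ × ℝ, P * qf A (f z) = (P * z.1 + R * z.2) ^ 2 + disc A * n ^ 2 * z.2 ^ 2 := by
    intro z
    rw [hfa z, hP, hR, hn]
    unfold qf disc nr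
    ring
  have hdrz : ∀ z : ℝ × ℝ, dr x (f z) = n * z.2 := by
    intro z
    rw [hfa z, hn]
    unfold dr nr
    ring
  set w' := w / n with hw'
  have hw'0 : 0 ≤ w' := div_nonneg hw hx.le
  have hsub : f ⁻¹' S ⊆ {z : ℝ × ℝ | |z.2| ≤ w' ∧
      z.1 ∈ {α : ℝ | (a * P - disc A * n ^ 2 * z.2 ^ 2) ≤ (P * α + R * z.2) ^ 2 ∧
        (P * α + R * z.2) ^ 2 ≤ (a * P - disc A * n ^ 2 * z.2 ^ 2) + h * P}} := by
    rintro z ⟨h1, h2, h3⟩
    rw [hdrz z, abs_mul, abs_of_pos hx] at h3
    refine ⟨?_, ?_, ?_⟩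
    · rw [hw', le_div_iff₀ hx]; linarith
    · have := hform z
      nlinarith
    · have := hform z
      nlinarith
  have hV : ∀ β : ℝ, |β| ≤ w' → a * P / 2 ≤ a * P - disc A * n ^ 2 * β ^ 2 := by
    intro β hβ
    have h1 : β ^ 2 ≤ w' ^ 2 := by
      rw [← sq_abs β]; exact pow_le_pow_left₀ (abs_nonneg _) hβ 2
    have h2 : n ^ 2 * w' ^ 2 = w ^ 2 := by
      rw [hw']; field_simp
    have h3 : disc A * n ^ 2 * β ^ 2 ≤ M ^ 2 * w ^ 2 := by
      calc disc A * n ^ 2 * β ^ 2 ≤ M ^ 2 * (n ^ 2 * β ^ 2) := by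
            rw [mul_assoc]
            exact mul_le_mul_of_nonneg_right hdisc.2 (by positivity)
        _ ≤ M ^ 2 * (n ^ 2 * w' ^ 2) := by
            apply mul_le_mul_of_nonneg_left _ (by positivity)
            exact mul_le_mul_of_nonneg_left h1 (by positivity)
        _ = _ := by rw [h2]
    have h4 : a * n ≤ M * (a * P) := by
      have : n ≤ M * P := by
        rw [div_le_iff₀ hM0] at hPn; linarith
      nlinarith
    have h5 : 8 * M ^ 3 * w ^ 2 ≤ M * (a * P) := le_trans hC h4
    have h6 : 8 * M ^ 2 * w ^ 2 ≤ a * P := by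
      have : M * (8 * M ^ 2 * w ^ 2) ≤ M * (a * P) := by nlinarith
      exact le_of_mul_le_mul_left this hM0
    nlinarith [sq_nonneg (M * w)]
  have haP : 0 < a * P := mul_pos ha hP0
  set B := h * Real.sqrt (2 * M) / Real.sqrt (a * n) with hB
  have hB0 : 0 ≤ B := by positivity
  have hline : ∀ β : ℝ, |β| ≤ w' → volume {α : ℝ | (a * P - disc A * n ^ 2 * β ^ 2) ≤
      (P * α + R * β) ^ 2 ∧ (P * α + R * β) ^ 2 ≤ (a * P - disc A * n ^ 2 * β ^ 2) + h * P} ≤
      ENNReal.ofReal B := by
    intro β hβ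
    have hv := hV β hβ
    have hv0 : 0 < a * P - disc A * n ^ 2 * β ^ 2 := by linarith
    refine le_trans (line_bound P (R * β) _ (h * P) hP0 hv0 (by positivity)) ?_
    apply ENNReal.ofReal_le_ofReal
    have e1 : h * P / (P * Real.sqrt (a * P - disc A * n ^ 2 * β ^ 2)) =
        h / Real.sqrt (a * P - disc A * n ^ 2 * β ^ 2) := by
      have := Real.sqrt_pos.mpr hv0
      field_simp
    rw [e1, hB]
    have e2 : Real.sqrt (a * n / (2 * M)) ≤ Real.sqrt (a * P - disc A * n ^ 2 * β ^ 2) := by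
      apply Real.sqrt_le_sqrt
      refine le_trans ?_ hv
      rw [div_le_div_iff₀ (by positivity) (by norm_num)]
      have : n ≤ M * P := by
        rw [div_le_iff₀ hM0] at hPn; linarith
      nlinarith
    have e3 : Real.sqrt (a * n / (2 * M)) = Real.sqrt (a * n) / Real.sqrt (2 * M) :=
      Real.sqrt_div (by positivity) _
    have e4 : 0 < Real.sqrt (a * n) := Real.sqrt_pos.mpr (by positivity)
    have e5 : 0 < Real.sqrt (2 * M) := Real.sqrt_pos.mpr (by positivity)
    calc h / Real.sqrt (a * P - disc A * n ^ 2 * β ^ 2)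
        ≤ h / (Real.sqrt (a * n) / Real.sqrt (2 * M)) := by
          apply div_le_div_of_nonneg_left hh (by positivity)
          rw [← e3]; exact e2
      _ = h * Real.sqrt (2 * M) / Real.sqrt (a * n) := by field_simp
  -- Fubini
  set Z := {z : ℝ × ℝ | |z.2| ≤ w' ∧
      z.1 ∈ {α : ℝ | (a * P - disc A * n ^ 2 * z.2 ^ 2) ≤ (P * α + R * z.2) ^ 2 ∧
        (P * α + R * z.2) ^ 2 ≤ (a * P - disc A * n ^ 2 * z.2 ^ 2) + h * P}} with hZ
  have hZm : MeasurableSet Z := by
    have : Z = {z : ℝ × ℝ | |z.2| ≤ w'} ∩ ({z : ℝ × ℝ | (a * P - disc A * n ^ 2 * z.2 ^ 2) ≤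
        (P * z.1 + R * z.2) ^ 2} ∩ {z : ℝ × ℝ | (P * z.1 + R * z.2) ^ 2 ≤
          (a * P - disc A * n ^ 2 * z.2 ^ 2) + h * P}) := by
      ext z; simp [hZ]
    rw [this]
    refine (measurableSet_le (by fun_prop) (by fun_prop)).inter
      ((measurableSet_le (by fun_prop) (by fun_prop)).inter
        (measurableSet_le (by fun_prop) (by fun_prop)))
  have hvol : volume Z ≤ ENNReal.ofReal (2 * w' * B) := by
    have hprod : (volume : Measure (ℝ × ℝ)) = (volume : Measure ℝ).prod volume := rfl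
    rw [hprod, Measure.prod_apply_symm hZm]
    calc ∫⁻ β, volume ((fun α : ℝ => (α, β)) ⁻¹' Z)
        ≤ ∫⁻ β, (Set.Icc (-w') w').indicator (fun _ => ENNReal.ofReal B) β := by
          apply lintegral_mono
          intro β
          by_cases hβ : |β| ≤ w'
          · have hmem : β ∈ Set.Icc (-w') w' := abs_le.mp hβ
            simp only [Set.indicator_of_mem hmem]
            refine le_trans (measure_mono ?_) (hline β hβ)
            rintro α ⟨_, h2⟩
            exact h2
          · have : (fun α : ℝ => (α, β)) ⁻¹' Z = ∅ := by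
              ext α
              simp only [Set.mem_preimage, Set.mem_empty_iff_false, iff_false]
              rintro ⟨h1, _⟩
              exact hβ h1
            simp [this]
      _ = ENNReal.ofReal B * volume (Set.Icc (-w') w') := by
          rw [lintegral_indicator measurableSet_Icc, setLIntegral_const]
      _ = ENNReal.ofReal (2 * w' * B) := by
          rw [Real.volume_Icc, ← ENNReal.ofReal_mul hB0]
          congr 1; ring
  rw [hSeq]
  calc ENNReal.ofReal n * volume (f ⁻¹' S) ≤ ENNReal.ofReal n * ENNReal.ofReal (2 * w' * B) := by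
        gcongr
        exact le_trans (measure_mono hsub) hvol
    _ = ENNReal.ofReal (n * (2 * w' * B)) := by rw [ENNReal.ofReal_mul hx.le]
    _ ≤ _ := by
        apply ENNReal.ofReal_le_ofReal
        have e1 : n * (2 * w' * B) = (2 * Real.sqrt (2 * M)) * h * w / Real.sqrt (a * n) := by
          rw [hw', hB]; field_simp
        rw [e1]
        apply div_le_div_of_nonneg_right _ (Real.sqrt_nonneg _)
        apply mul_le_mul_of_nonneg_right _ hw
        apply mul_le_mul_of_nonneg_right _ hh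
        have e2 : Real.sqrt (2 * M) ≤ 2 * M := by
          rw [Real.sqrt_le_left (by positivity)]
          nlinarith
        nlinarith [sq_nonneg (M - 1), mul_pos hM0 hM0, mul_nonneg hM0.le (sq_nonneg (M-1))]

end Pool.Agent.F5S.H36
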